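import Pool.Agent.Seat73.PP.Main

/-!
# Equicontinuity on a Hartogs figure does not propagate to the polydisk

`ℂ^(n+1)` is `Fin (n + 1) → ℂ`, the last coordinate is the distinguished one.
From `Pool/Agent/Seat73/PP/Defs.lean`: `Polydisk n` is `Δ^(n+1)`; `Hartogs n r` is the Hartogs figure
`H_n^1(r)`; `IsDistance d`: `d` is a distance on `X` which induces the topology of `X` (for instance the
distance of any hermitian metric); `EquicontOn d 𝓕 U`: the family `𝓕` is equicontinuous on `U` with
respect to `d`.
In the same file `KahlerForm E X` is the type of the Kähler forms on `X`, i.e. of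
the smooth real `2`-forms which are invariant under multiplication by `i`, positive and closed
(given by their expressions in the charts of `X`, which agree on the overlaps).

In the proof `X` is the complex projective plane with the Fubini-Study form, and the maps are
`z ↦ [z_1 - a : z_(n+1) : 1 / k]`, `k ≥ 1`, with `a = 1 - r / 2`.
-/

set_option autoImplicit false

open scoped Manifold ContDiff Topology

namespace Pool.Agent.Results.MP_7ec995_an.PlaneFamily

open Pool.Agent.Seat73.PP

/-- There is a compact connected Kähler manifold `X` of dimension two such that for all `n ≥ 1` and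
`0 < r < 1` there is a family of holomorphic maps from `ℂ^(n+1)` to `X` (so their restrictions to the
polydisk are holomorphic) which, for every distance on `X` inducing its topology, is equicontinuous on
the Hartogs figure `H_n^1(r)` but not on the polydisk `Δ^(n+1)`. -/
theorem result :
    ∃ (X : Type) (_ : TopologicalSpace X) (_ : ChartedSpace (Fin 2 → ℂ) X),
      IsManifold 𝓘(ℂ, Fin 2 → ℂ) ω X ∧ CompactSpace X ∧ T2Space X ∧ SecondCountableTopology X ∧
      ConnectedSpace X ∧ Nonempty (KahlerForm (Fin 2 → ℂ) X) ∧ (∃ d : X → X → ℝ, IsDistance d) ∧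
      ∀ (n : ℕ) (r : ℝ), 1 ≤ n → 0 < r → r < 1 → ∃ 𝓕 : Set ((Fin (n + 1) → ℂ) → X),
        (∀ f ∈ 𝓕, ContMDiff 𝓘(ℂ, Fin (n + 1) → ℂ) 𝓘(ℂ, Fin 2 → ℂ) ω f) ∧
        ∀ d : X → X → ℝ, IsDistance d →
          EquicontOn d 𝓕 (Hartogs n r) ∧ ¬ EquicontOn d 𝓕 (Polydisk n) := by
  refine ⟨PX 2, inferInstance, inferInstance, inferInstance, inferInstance, inferInstance,
    inferInstance, inferInstance, ⟨fubiniStudy 2⟩, exists_distance, ?_⟩
  intro n r hn hr hr1
  refine ⟨Set.range (fk n hn (1 - r / 2)), ?_, fun d hd => ⟨equi hn hr hr1 hd,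
    not_equi hn (by linarith) (by linarith) hd⟩⟩
  rintro _ ⟨k, rfl⟩
  exact mk_contMDiff _ (vec_contDiff n hn _ _) _

end Pool.Agent.Results.MP_7ec995_an.PlaneFamily
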